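import Pool.Agent.ACK.StmtsC

/-!
# ACK, row BIG: no double relations
-/

set_option autoImplicit false

namespace Pool.Agent.ACK.H51

open Pool.Agent.ACK Pool.Agent.ACK.C

theorem big_bk_br (C : ℕ → List ℕ) (t : Tk) : bk C (br t) = (bk C t).reverse := by
  unfold bk br
  cases h : t.2
  · simp
  · simp

theorem big_not (x : Bool) : ¬ (x = !x) := by
  cases x <;> decide

theorem big_br_ne (t : Tk) : t ≠ br t := by
  intro h
  have h2 : t.2 = !t.2 := congrArg Prod.snd h
  exact big_not _ h2

theorem big_mem (C : ℕ → List ℕ) (t : Tk) (x : ℕ) (h : x ∈ bk C t) : x ∈ C t.1 := by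
  unfold bk at h
  split at h
  · exact List.mem_reverse.1 h
  · exact h

theorem big_dec (b : List Tk) (i j : ℕ) (hij : i < j) (hj : j < b.length) :
    ∃ P Q R : List Tk, b = P ++ tk b i :: (Q ++ tk b j :: R) := by
  have hi : i < b.length := by omega
  have ei : tk b i = b[i] := List.getD_eq_getElem _ _ hi
  have ej : tk b j = b[j] := List.getD_eq_getElem _ _ hj
  refine ⟨b.take i, (b.drop (i + 1)).take (j - i - 1), b.drop (j + 1), ?_⟩
  rw [ei, ej]
  have h1 : b.drop (i + 1) = (b.drop (i + 1)).take (j - i - 1) ++ b[j] :: b.drop (j + 1) := by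
    conv_lhs => rw [← List.take_append_drop (j - i - 1) (b.drop (i + 1))]
    congr 1
    rw [List.drop_drop, show i + 1 + (j - i - 1) = j by omega]
    exact List.drop_eq_getElem_cons hj
  rw [← h1, ← List.drop_eq_getElem_cons hi, List.take_append_drop]

theorem big_ty (C : ℕ → List ℕ) (b : List Tk) (s : ℕ → Bool) (hty : Ty C b s) (i j : ℕ)
    (hi : i < b.length) (hj : j < b.length) (hij : i ≠ j) (h1 : (tk b i).1 = (tk b j).1) :
    ∀ x ∈ C (tk b i).1, (s x = false ↔ (tk b i).2 = (tk b j).2) := by
  intro x hx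
  rcases Nat.lt_or_gt_of_ne hij with h | h
  · obtain ⟨P, Q, R, hb⟩ := big_dec b i j h hj
    exact hty P Q R _ _ hb h1 x hx
  · obtain ⟨P, Q, R, hb⟩ := big_dec b j i h hi
    rw [h1] at hx
    rw [hty P Q R _ _ hb h1.symm x hx]
    exact eq_comm

theorem big (cwg : CwgStmt) (gpb : GpbStmt) (hlet : C.LetStmt) : C.BigStmt := by
  intro c C b s hS k hk k' hk' hkk
  have hlen := hS.len
  have hl := hS.kn.len
  have hc : 1 ≤ c := by
    have := (cwg C b hS.cw).2.2
    omega
  have hL := hlet c C b hc hS.cw hl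
  have hinj := (gpb c C b hc hS.cw hl).2
  rw [hlen] at hinj
  obtain ⟨⟨x, y, X, Y, e1, e2, e3, e4⟩, -, e5⟩ := hL k (by omega)
  obtain ⟨⟨x', y', X', Y', f1, f2, f3, f4⟩, -, f5⟩ := hL k' (by omega)
  rw [hlen] at e2 f2 e5 f5
  have hpq : gp c C b k ≠ gp c C b k' := fun h => hkk (hinj k hk k' hk' h)
  have hxm : x ∈ C (tk b k).1 := big_mem C _ x (by
    rw [e1]
    exact List.mem_append_right _ (List.mem_singleton_self x))
  have hym : y ∈ C (tk b ((k + 1) % 12)).1 := big_mem C _ y (by
    rw [e2]
    exact List.mem_cons_self)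
  constructor
  · rintro ⟨h1, h2⟩
    rw [h1, e1] at f1
    rw [h2, e2] at f2
    have hx : x = x' := by
      have := congrArg (fun l => l.getLast?) f1
      simpa using this
    have hy : y = y' := (List.cons.inj f2).1
    apply hS.gb k hk (gp c C b k')
    refine ⟨hpq, Or.inl ⟨?_, ?_, ?_, ?_⟩⟩
    · rw [e3]
      exact (big_ty C b s hS.ty k k' (by omega) (by omega) hkk (by rw [h1]) x hxm).2
        (by rw [h1])
    · rw [e4]
      exact (big_ty C b s hS.ty ((k + 1) % 12) ((k' + 1) % 12) (by omega) (by omega)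
        (by omega) (by rw [h2]) y hym).2 (by rw [h2])
    · rw [e3, f3, hx]
    · rw [e4, f4, hy]
  · rintro ⟨h1, h2⟩
    rw [h1, big_bk_br, e2] at f1
    rw [h2, big_bk_br, e1] at f2
    have hx : y = x' := by
      have := congrArg (fun l => l.getLast?) f1
      simpa using this
    have hy : x = y' := by
      have := congrArg (fun l => l.head?) f2
      simpa using this
    have hn1 : k' ≠ (k + 1) % 12 := by
      intro h
      rw [h] at h1
      exact big_br_ne _ h1
    have hn2 : k ≠ (k' + 1) % 12 := by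
      intro h
      rw [← h] at h2
      exact big_br_ne _ h2
    apply hS.gb k hk (gp c C b k')
    refine ⟨hpq, Or.inr ⟨?_, ?_, ?_, ?_, ?_, ?_⟩⟩
    · rw [e3]
      have := big_ty C b s hS.ty k ((k' + 1) % 12) (by omega) (by omega) hn2 (by
        rw [h2]
        rfl) x hxm
      by_contra hs
      rw [Bool.not_eq_true] at hs
      have h3 := this.1 hs
      rw [h2] at h3
      exact big_not _ h3
    · rw [e4]
      have := big_ty C b s hS.ty ((k + 1) % 12) k' (by omega) (by omega) hn1.symm (by
        rw [h1]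
        rfl) y hym
      by_contra hs
      rw [Bool.not_eq_true] at hs
      have h3 := this.1 hs
      rw [h1] at h3
      exact big_not _ h3
    · rw [e4, f3, hx]
    · rw [e3, f4, hy]
    · intro h
      exact hn2 (f5 k (by omega) h)
    · intro h
      exact hn1 (e5 k' (by omega) h)

end Pool.Agent.ACK.H51
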