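import Pool.Agent.ACK.StmtsA

/-!
# ACK, row GFW: the function form of a word in which every letter occurs twice
-/

set_option autoImplicit false

namespace Pool.Agent.ACK.H51

open Pool.Agent.ACK

/-- the number of the positions of a letter -/
theorem gfw_card (l : List ℕ) (x : ℕ) :
    ((Finset.range l.length).filter (fun i => l.getD i 0 = x)).card = l.count x := by
  have h : l = (List.range l.length).map (fun i => l.getD i 0) := by
    apply List.ext_getElem
    · simp
    · intro i h1 h2
      rw [List.getElem_map, List.getElem_range, List.getD_eq_getElem _ _ h1]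
  conv_rhs => rw [h]
  rw [List.count, List.countP_map, List.countP_eq_length_filter]
  have h2 : ((fun y => y == x) ∘ fun i => l.getD i 0) = fun i => decide (l.getD i 0 = x) := by
    funext i
    simp only [Function.comp_apply]
    rw [Bool.beq_eq_decide_eq]
  rw [h2]
  rfl

theorem gfw : GfwStmt := by
  intro c l hc hlen hgw i
  have : NeZero (2 * c) := ⟨by omega⟩
  have hi : i.val < l.length := by
    rw [hlen]
    exact ZMod.val_lt i
  have hmem : l.getD i.val 0 ∈ l := by
    rw [List.getD_eq_getElem _ _ hi]
    exact List.getElem_mem hi
  have hcard := gfw_card l (l.getD i.val 0)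
  rw [hgw _ hmem] at hcard
  obtain ⟨a, b, hab, hS⟩ := Finset.card_eq_two.1 hcard
  have hiS : i.val ∈ (Finset.range l.length).filter (fun k => l.getD k 0 = l.getD i.val 0) := by
    rw [Finset.mem_filter, Finset.mem_range]
    exact ⟨hi, rfl⟩
  have key : ∃ b, b ≠ i.val ∧ b ∈ (Finset.range l.length).filter
      (fun k => l.getD k 0 = l.getD i.val 0) ∧ ∀ k ∈ (Finset.range l.length).filter
      (fun k => l.getD k 0 = l.getD i.val 0), k = i.val ∨ k = b := by
    rw [hS] at hiS ⊢
    rcases Finset.mem_insert.1 hiS with h | h
    · refine ⟨b, ?_, ?_, ?_⟩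
      · rw [h]
        exact hab.symm
      · simp
      · intro k hk
        rcases Finset.mem_insert.1 hk with h' | h'
        · left
          rw [h, h']
        · right
          exact Finset.mem_singleton.1 h'
    · rw [Finset.mem_singleton] at h
      refine ⟨a, ?_, ?_, ?_⟩
      · rw [h]
        exact hab
      · simp
      · intro k hk
        rcases Finset.mem_insert.1 hk with h' | h'
        · right
          exact h'
        · left
          rw [h]
          exact Finset.mem_singleton.1 h'
  obtain ⟨j, hj, hjS, hall⟩ := key
  rw [Finset.mem_filter, Finset.mem_range] at hjS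
  have hjv : ((j : ℕ) : ZMod (2 * c)).val = j := ZMod.val_natCast_of_lt (by
    rw [← hlen]
    exact hjS.1)
  refine ⟨(j : ZMod (2 * c)), ?_, ?_, ?_⟩
  · intro h
    apply hj
    rw [← hjv, h]
  · unfold wd
    rw [hjv]
    exact hjS.2
  · intro k hk
    unfold wd at hk
    have hkl : k.val < l.length := by
      rw [hlen]
      exact ZMod.val_lt k
    rcases hall k.val (by
      rw [Finset.mem_filter, Finset.mem_range]
      exact ⟨hkl, hk⟩) with h | h
    · left
      exact ZMod.val_injective _ h
    · right
      apply ZMod.val_injective
      rw [h, hjv]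

end Pool.Agent.ACK.H51
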