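import Pool.Agent.ACK.StmtsB

/-!
# ACK, row KRN: constant on both kinds of circles implies constant
-/

set_option autoImplicit false

namespace Pool.Agent.ACK.H51

open Pool.Agent.ACK Pool.Agent.ACK.B

theorem krn : KrnStmt := by
  intro n _ w s hg F h1 h2
  have step : ∀ i : ZMod n, F (i - 1) = F i := by
    intro i
    obtain ⟨j, hji, hw, -⟩ := hg i
    by_cases hs : s (w i) = true
    · have e1 : CR w s (i - 1) j := ⟨i, j, hji.symm, hw.symm, Or.inl ⟨hs, rfl, rfl⟩⟩
      have e2 : CR w (op s) i j := ⟨i, j, hji.symm, hw.symm, Or.inr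
        ⟨by unfold op; rw [hs]; rfl, Or.inr ⟨rfl, rfl⟩⟩⟩
      rw [h1 _ _ e1, h2 _ _ e2]
    · have hs' : s (w i) = false := by
        rw [Bool.not_eq_true] at hs
        exact hs
      have e1 : CR w (op s) (i - 1) j := ⟨i, j, hji.symm, hw.symm, Or.inl
        ⟨by unfold op; rw [hs']; rfl, rfl, rfl⟩⟩
      have e2 : CR w s i j := ⟨i, j, hji.symm, hw.symm, Or.inr ⟨hs', Or.inr ⟨rfl, rfl⟩⟩⟩
      rw [h2 _ _ e1, h1 _ _ e2]
  have h0 : ∀ k : ℕ, F (k : ZMod n) = F 0 := by
    intro k
    induction k with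
    | zero => rw [Nat.cast_zero]
    | succ k ih =>
      have := step ((k + 1 : ℕ) : ZMod n)
      rw [← this, ← ih]
      congr 1
      push_cast
      ring
  intro p q
  have hp := h0 p.val
  have hq := h0 q.val
  rw [ZMod.natCast_zmod_val] at hp hq
  rw [hp, hq]

end Pool.Agent.ACK.H51
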